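import Pool.Agent.Y560.TG.Stm

/-!
Project TG, job SUB: supersets of big classes are big.
-/

set_option autoImplicit false

namespace Pool.Agent.Y108.TG

open Set
open Pool.Agent.H899R2.VP (St Adj PIso BF IsoOn idOn inv comp zipSet)
open Pool.Agent.H533R2.VO (RS lift put OS Ic RIso Dich VC BlkV S_FINAL)
open Pool.Agent.H566P (ar R2 v2 a0 a1 lt ac co mk LA LL MB lab sh prec pull S_ACC S_MSG)
open Pool.Agent.Y560.TG

/-- Smallness from a countable classification. -/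
theorem sm_of_list {ι : Type} [Countable ι] [Nonempty ι] {β : Ordinal.{0}} {L : R2} {E : Set ℕ}
    (F : R2 → R2) (Pd : ι → R2 → Prop)
    (h1 : ∀ (N : R2) (Y : Set ℕ), BF (lift L) (lift N) E Y β ∅ →
      ∃ V i, Pd i V ∧ IsoOn (lift N) (lift (F V)) Y E ∅)
    (h2 : ∀ i V V', Pd i V → Pd i V' → IsoOn (lift (F V')) (lift (F V)) E E ∅) : Sm β L E := by
  classical
  obtain ⟨e, he⟩ := exists_surjective_nat ι
  refine ⟨fun n => (if h : ∃ V, Pd (e n) V then F h.choose else L, E), fun N Y hN => ?_⟩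
  obtain ⟨V, i, hV, hI⟩ := h1 N Y hN
  obtain ⟨n, rfl⟩ := he i
  refine ⟨n, ?_⟩
  have hex : ∃ V, Pd (e n) V := ⟨V, hV⟩
  show IsoOn (lift (if h : ∃ V, Pd (e n) V then F h.choose else L)) (lift N) E Y ∅
  rw [dif_pos hex]
  exact iso_trans0 (h2 _ _ _ hV hex.choose_spec) (iso_symm0 hI)

/-- Labels are preserved by isomorphisms of invariant sets. -/
theorem Q_tr {V V' : R2} {G : Set ℕ} {τ : Set (ℕ × ℕ)} (hsub : τ ⊆ G ×ˢ G)
    (hp : PIso (lift V') (lift V) τ) (hl : ∀ x ∈ G, ∃ y, (x, y) ∈ τ)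
    (hinv : ∀ n x z, ac V' n x z → (x ∈ G ↔ z ∈ G)) {y y' : ℕ} (hy : (y, y') ∈ τ) {v v' : ℕ}
    (hv : (v, v') ∈ τ) {m : ℕ} (h : Q V' y m v) : Q V y' m v' := by
  obtain ⟨k, rfl | rfl⟩ : ∃ k, m = 2 * k ∨ m = 2 * k + 1 := ⟨m / 2, by omega⟩
  · rw [Q_even] at h ⊢
    obtain ⟨p, h1, h2⟩ := h
    have hpG : p ∈ G := (hinv k y p h1).1 (hsub hy).1
    obtain ⟨p', hp'⟩ := hl p hpG
    exact ⟨p', (piso_ac hp hy hp').1 h1, (piso_lt hp hp' hv).1 h2⟩
  · rw [Q_odd] at h ⊢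
    exact (piso_ac hp hy hv).1 h

theorem Q_tr' {V V' : R2} {G : Set ℕ} {τ : Set (ℕ × ℕ)} (hsub : τ ⊆ G ×ˢ G)
    (hp : PIso (lift V') (lift V) τ) (hl : ∀ x ∈ G, ∃ y, (x, y) ∈ τ)
    (hr : ∀ y ∈ G, ∃ x, (x, y) ∈ τ)
    (hinv : ∀ n x z, ac V n x z → (x ∈ G ↔ z ∈ G))
    (hinv' : ∀ n x z, ac V' n x z → (x ∈ G ↔ z ∈ G)) {y y' : ℕ} (hy : (y, y') ∈ τ) {v v' : ℕ}
    (hv : (v, v') ∈ τ) (m : ℕ) : Q V' y m v ↔ Q V y' m v' := by
  refine ⟨Q_tr hsub hp hl hinv' hy hv, fun h => ?_⟩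
  refine Q_tr (τ := inv τ) (G := G) ?_ hp.symm hr hinv hy hv h
  intro u hu
  exact ⟨(hsub hu).2, (hsub hu).1⟩

theorem Ob_tr {V V' : R2} {G : Set ℕ} {τ : Set (ℕ × ℕ)} (hsub : τ ⊆ G ×ˢ G)
    (hp : PIso (lift V') (lift V) τ) (hl : ∀ x ∈ G, ∃ y, (x, y) ∈ τ)
    (hr : ∀ y ∈ G, ∃ x, (x, y) ∈ τ)
    (hinv : ∀ n x z, ac V n x z → (x ∈ G ↔ z ∈ G))
    (hinv' : ∀ n x z, ac V' n x z → (x ∈ G ↔ z ∈ G)) {y y' : ℕ} (hy : (y, y') ∈ τ) {v v' : ℕ}
    (hv : (v, v') ∈ τ) {x x' : ℕ} (hx : (x, x') ∈ τ) (h : x ∈ Ob V' y v) : x' ∈ Ob V y' v' := by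
  obtain ⟨n, m, z, w, h1, h2, h3, h4, h5⟩ := h
  obtain ⟨z', hz⟩ := hl z ((hinv' n v z h1).1 (hsub hv).1)
  obtain ⟨w', hw⟩ := hl w ((hinv' m v w h2).1 (hsub hv).1)
  refine ⟨n, m, z', w', (piso_ac hp hv hz).1 h1, (piso_ac hp hv hw).1 h2,
    fun h => h3 ((piso_lt hp hx hz).2 h), fun h => h4 ((piso_lt hp hw hx).2 h), fun m => ?_⟩
  rw [← Q_tr' hsub hp hl hr hinv hinv' hy hz m, ← Q_tr' hsub hp hl hr hinv hinv' hy hw m]
  exact h5 m

theorem Ob_tr' {V V' : R2} {G : Set ℕ} {τ : Set (ℕ × ℕ)} (hsub : τ ⊆ G ×ˢ G)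
    (hp : PIso (lift V') (lift V) τ) (hl : ∀ x ∈ G, ∃ y, (x, y) ∈ τ)
    (hr : ∀ y ∈ G, ∃ x, (x, y) ∈ τ)
    (hinv : ∀ n x z, ac V n x z → (x ∈ G ↔ z ∈ G))
    (hinv' : ∀ n x z, ac V' n x z → (x ∈ G ↔ z ∈ G)) {y y' : ℕ} (hy : (y, y') ∈ τ) {v v' : ℕ}
    (hv : (v, v') ∈ τ) {x x' : ℕ} (hx : (x, x') ∈ τ) : x ∈ Ob V' y v ↔ x' ∈ Ob V y' v' := by
  refine ⟨Ob_tr hsub hp hl hr hinv hinv' hy hv hx, fun h => ?_⟩
  refine Ob_tr (τ := inv τ) (G := G) ?_ hp.symm hr hl hinv' hinv hy hv hx h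
  intro u hu
  exact ⟨(hsub hu).2, (hsub hu).1⟩

/-- Restriction of an isomorphism. -/
theorem iso_restrict {V V' : R2} {y : ℕ} {G E : Set ℕ} {τ : Set (ℕ × ℕ)}
    (hp : PIso (lift V') (lift V) τ) (hl : ∀ x ∈ G, ∃ y, (x, y) ∈ τ)
    (hr : ∀ y ∈ G, ∃ x, (x, y) ∈ τ) (hEG : E ⊆ G)
    (hE : ∀ x x', (x, x') ∈ τ → (x ∈ E ↔ x' ∈ E))
    (hQ : ∀ x x', (x, x') ∈ τ → x ∈ E → ∀ m, (Q V' y m x ↔ Q V y m x')) :
    IsoOn (lift (lb V' y)) (lift (lb V y)) E E ∅ := by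
  refine ⟨{w | w ∈ τ ∧ w.1 ∈ E}, empty_subset _, ?_, ?_, ?_, ?_⟩
  · rintro ⟨x, x'⟩ ⟨h1, h2⟩
    exact ⟨h2, (hE x x' h1).1 h2⟩
  · unfold lb
    rw [piso_ex]
    refine ⟨hp.mono fun w hw => hw.1, ?_⟩
    rintro k ⟨x, x'⟩ ⟨h1, h2⟩
    exact hQ x x' h1 h2 k
  · intro x hx
    obtain ⟨x', hx'⟩ := hl x (hEG hx)
    exact ⟨x', hx', hx⟩
  · intro x' hx'
    obtain ⟨x, hx⟩ := hr x' (hEG hx')
    exact ⟨x, hx, (hE x x' hx).2 hx'⟩

theorem t_SUB (hE : S_EXT) (hT : S_TRQ) (hG : S_GEO) (hF : S_FILL) (hO : S_OFF) : S_SUB := by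
  intro Γ _ g hg R y z u D β hR hβ hyz hu hD hSm
  obtain ⟨G1, G2, G3, -, G5, G6, -, G8, G9, -⟩ := hG Γ g hg R hR
  have hyE : y ∉ Ob R y z := fun h => hyz ((G9 y z).1.1 h)
  have hEG : Ob R y z ⊆ Ob R u z := G8 y z u hu
  have hinvE : ∀ n x w, ac R n x w → (x ∈ Ob R y z ↔ w ∈ Ob R y z) := fun n x w h =>
    G3 n y z x w h
  obtain ⟨f, hf⟩ := hSm
  set E := Ob R y z with hEdef
  set G := Ob R u z with hGdef
  -- facts on a variation
  have facts : ∀ V : R2, Off E R V → BF (lift R) (lift V) univ univ β (idOn Eᶜ) →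
      (∀ m v, Q V y m v ↔ Q R y m v) ∧ (∀ m v, Q V u m v ↔ Q R u m v) ∧ MB g ⊤ V ∧
      Ob V y z = E ∧ Ob V u z = G ∧
      (∀ n x w, ac V n x w → (x ∈ G ↔ w ∈ G)) ∧
      BF (lift (lb (Nm D R) u)) (lift (lb (Nm D V) u)) G G β ∅ := by
    intro V hV hB
    obtain ⟨O1, O2⟩ := hO Γ g hg R V E hR hinvE hV
    obtain ⟨V1, V2, V3, V4, V5⟩ := O2 (hB.mono hβ)
    have hObu : Ob V u z = G := V5 u z hu hEG z (G1 u z)
    refine ⟨fun m v => O1 y v m hyE, fun m v => O1 u v m hu, V1, V3 y z hyz rfl z (G1 y z), hObu,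
      ?_, ?_⟩
    · obtain ⟨-, -, W3, -⟩ := hG Γ g hg V V1
      intro n x w h
      rw [← hObu]
      exact W3 n u z x w h
    · have key := hE R V (lb (Nm D R) u) (lb (Nm D V) u) univ univ G G (idOn Eᶜ) ∅ 1
        (subset_univ _) (subset_univ _) ?_ β ?_
      · exact key.subset (empty_subset _)
      · intro q hq hb
        have hbp := hb.piso
        have e1 : ∀ a b, (a, b) ∈ q → a ∉ E → a = b := by
          intro a b hab ha
          exact (piso_eq hbp (hq ⟨rfl, ha⟩) hab).1 rfl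
        have e2 : ∀ a b, (a, b) ∈ q → b ∉ E → a = b := by
          intro a b hab hb'
          exact ((piso_eq hbp (hq ⟨rfl, hb'⟩) hab).2 rfl).symm
        have e3 : ∀ a b, (a, b) ∈ q → (a ∈ E ↔ b ∈ E) := by
          intro a b hab
          constructor
          · intro ha
            by_contra hb'
            exact hb' (e2 a b hab hb' ▸ ha)
          · intro hb'
            by_contra ha
            exact ha ((e1 a b hab ha).symm ▸ hb')
        constructor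
        · rw [union_empty]
          unfold lb Nm
          rw [piso_ex, piso_ex]
          refine ⟨⟨hbp.mono fun w hw => hw.1, ?_⟩, ?_⟩
          · rintro k ⟨a, b⟩ ⟨h1, h2⟩
            show (a = k ∧ a ∉ D) ↔ (b = k ∧ b ∉ D)
            by_cases ha : a ∈ E
            · have hb' := (e3 a b h1).1 ha
              exact ⟨fun h => absurd (hD ha) h.2, fun h => absurd (hD hb') h.2⟩
            · rw [e1 a b h1 ha]
          · rintro k ⟨a, b⟩ ⟨h1, h2⟩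
            rw [Q_ex, Q_ex]
            exact hT.1 R V q u u a b k hb (hq ⟨rfl, hu⟩) h1
        · rintro ⟨a, b⟩ h1
          show a ∈ G ↔ b ∈ G
          by_cases ha : a ∈ E
          · have hb' := (e3 a b h1).1 ha
            exact ⟨fun _ => hEG hb', fun _ => hEG ha⟩
          · rw [e1 a b h1 ha]
      · rw [Ordinal.one_add_of_omega0_le hβ]
        exact hB
  have lbeq : ∀ V : R2, (∀ m v, Q V y m v ↔ Q R y m v) → ex (Q R y) V = lb V y := by
    intro V h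
    unfold lb
    congr 1
    funext m v
    exact propext (h m v).symm
  have hfill : ∀ (N : R2) (Y : Set ℕ), BF (lift (lb R y)) (lift N) E Y β ∅ →
      ∃ V, Off E R V ∧ BF (lift R) (lift V) univ univ β (idOn Eᶜ) ∧
        IsoOn (lift N) (lift (lb V y)) Y E ∅ := by
    intro N Y hN
    obtain ⟨V, h1, h2, h3, -⟩ := hF Γ g hg R N E Y (Q R y) β hR (G6 y z hyz) hβ hN
    refine ⟨V, h1, h2, ?_⟩
    rw [← lbeq V (facts V h1 h2).1]
    exact h3
  by_cases hyG : y ∈ G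
  · -- the point `y` lies in `G`
    refine sm_of_list (ι := ℕ × ℕ × ℕ) (fun V => lb V y)
      (fun i V => Off E R V ∧ BF (lift R) (lift V) univ univ β (idOn Eᶜ) ∧
        IsoOn (lift (f i.1).1) (lift (lb (Nm D V) u)) (f i.1).2 G {(i.2.1, y), (i.2.2, z)})
      ?_ ?_
    · intro N Y hN
      obtain ⟨V, h1, h2, h3⟩ := hfill N Y hN
      obtain ⟨-, -, -, -, -, -, h4⟩ := facts V h1 h2
      obtain ⟨n, q, -, hq2, hq3, hq4, hq5⟩ := hf _ _ h4
      obtain ⟨a, ha⟩ := hq5 y hyG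
      obtain ⟨b, hb⟩ := hq5 z (G1 u z)
      refine ⟨V, (n, a, b), ⟨h1, h2, q, ?_, hq2, hq3, hq4, hq5⟩, h3⟩
      rintro w (rfl | rfl)
      · exact ha
      · exact hb
    · rintro ⟨n, a, b⟩ V V' ⟨h1, h2, h3⟩ ⟨h1', h2', h3'⟩
      obtain ⟨-, -, -, b4, b5, b6, -⟩ := facts V h1 h2
      obtain ⟨-, -, -, b4', b5', b6', -⟩ := facts V' h1' h2'
      obtain ⟨τ, t1, t2, t3, t4, t5⟩ := h3'.symm.trans h3
      have hy : (y, y) ∈ τ := t1 ⟨a, Or.inl rfl, Or.inl rfl⟩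
      have hz : (z, z) ∈ τ := t1 ⟨b, Or.inr rfl, Or.inr rfl⟩
      have tp : PIso (lift V') (lift V) τ := by
        unfold lb Nm at t3
        exact (piso_ex.1 (piso_ex.1 t3).1).1
      refine iso_restrict tp t4 t5 hEG (fun x x' hx => ?_) (fun x x' hx _ m => ?_)
      · have := Ob_tr' t2 tp t4 t5 b6 b6' hy hz hx
        rwa [b4, b4'] at this
      · exact Q_tr' t2 tp t4 t5 b6 b6' hy hx m
  · -- `y` is not in `G`, so `G = E`
    have hGE : G = E := Subset.antisymm (G8 u z y hyG) hEG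
    refine sm_of_list (ι := ℕ) (fun V => lb V y)
      (fun i V => Off E R V ∧ BF (lift R) (lift V) univ univ β (idOn Eᶜ) ∧
        IsoOn (lift (f i).1) (lift (lb (Nm D V) u)) (f i).2 G ∅)
      ?_ ?_
    · intro N Y hN
      obtain ⟨V, h1, h2, h3⟩ := hfill N Y hN
      obtain ⟨-, -, -, -, -, -, h4⟩ := facts V h1 h2
      obtain ⟨n, hn⟩ := hf _ _ h4
      exact ⟨V, n, ⟨h1, h2, hn⟩, h3⟩
    · rintro n V V' ⟨h1, h2, h3⟩ ⟨h1', h2', h3'⟩
      obtain ⟨q1, q2, -, b4, b5, b6, -⟩ := facts V h1 h2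
      obtain ⟨q1', q2', -, b4', b5', b6', -⟩ := facts V' h1' h2'
      obtain ⟨τ, t1, t2, t3, t4, t5⟩ := h3'.symm.trans h3
      have tp1 : PIso (lift V') (lift V) τ := by
        unfold lb Nm at t3
        exact (piso_ex.1 (piso_ex.1 t3).1).1
      have tq : ∀ x x', (x, x') ∈ τ → ∀ m, (Q V' u m x ↔ Q V u m x') := by
        intro x x' hx m
        unfold lb Nm at t3
        have := (piso_ex.1 t3).2 m _ hx
        rwa [Q_ex, Q_ex] at this
      refine iso_restrict tp1 t4 t5 hEG (fun x x' hx => ?_) (fun x x' hx _ m => ?_)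
      · have := t2 hx
        rw [hGE] at this
        exact ⟨fun _ => this.2, fun _ => this.1⟩
      · have hxG : x ∈ G := (t2 hx).1
        have hxG' : x' ∈ G := (t2 hx).2
        have hsl : sl R u x x' := by
          intro m
          rw [← q2' m x, ← q2 m x']
          exact tq x x' hx m
        rw [q1, q1']
        have hw : ∀ w, w ∉ G → (lt R x w ↔ lt R x' w) ∧ (lt R w x ↔ lt R w x') :=
          fun w hw => G5 u z x hxG x' hxG' hsl w hw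
        obtain ⟨k, rfl | rfl⟩ : ∃ k, m = 2 * k ∨ m = 2 * k + 1 := ⟨m / 2, by omega⟩
        · rw [Q_even, Q_even]
          constructor
          · rintro ⟨p, h5, h6⟩
            have hp : p ∉ G := by
              rw [hGE]
              exact fun hp => hyE ((hinvE k y p h5).2 hp)
            exact ⟨p, h5, (hw p hp).2.1 h6⟩
          · rintro ⟨p, h5, h6⟩
            have hp : p ∉ G := by
              rw [hGE]
              exact fun hp => hyE ((hinvE k y p h5).2 hp)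
            exact ⟨p, h5, (hw p hp).2.2 h6⟩
        · rw [Q_odd, Q_odd]
          constructor
          · intro h5
            exact absurd ((hinvE k y x h5).2 (hGE ▸ hxG)) hyE
          · intro h5
            exact absurd ((hinvE k y x' h5).2 (hGE ▸ hxG')) hyE

end Pool.Agent.Y108.TG
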